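import Pool.Agent.Helper79.GT.St6

/-! MODULE FNV of project GT (MP_c2d095_lc): the language decides the game. -/

set_option autoImplicit false

namespace Pool.Agent.Helper87.GT

open Pool.Agent.Helper79.GT Pool.Agent.Helper79.GS Pool.Agent.Helper19.SK Pool.Agent.Helper73.DC
  Finset
open scoped Classical

private theorem sym_wH {P : Type} (M : ℕ) (H₀ : Set (Bool × P)) (x : (P × Fin M) ⊕ Bool) :
    (true, x) ∈ wH false M H₀ ↔ (false, x) ∈ wH false M H₀ := by
  unfold wH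
  simp only [Set.mem_setOf_eq, Bool.not_true, Bool.not_false, true_and]
  constructor
  · rintro ⟨a, h, h1 | h1⟩
    · exact ⟨a, h, Or.inr h1⟩
    · exact ⟨a, h, Or.inl h1⟩
  · rintro ⟨a, h, h1 | h1⟩
    · exact ⟨a, h, Or.inr h1⟩
    · exact ⟨a, h, Or.inl h1⟩

/-- The histories correspond. -/
private theorem hist (sk tc : Bool) (e : ℕ) (Sm : Bool → ℕ → ℕ → (ℕ → ℕ) → Prop) {n : ℕ}
    (w : List (Fin 5)) (H : List (Bool × Pos (Fin n × Fin n)))
    (hPP : PP (NN e w) w = 3 ^ (n * n))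
    (hHV : ∀ (s : Bool) (Q : Pos (Fin n × Fin n)) (i : ℕ), i < MM w →
      (HV sk (NN e w) w (bn s) (codeB Q + 3 ^ (n * n) * i) ↔
        (s, Q) ∈ H ∨ (sk = false ∧ (!s, Q) ∈ H)))
    (s : Bool) (x : (Pos (Fin n × Fin n) × Fin (2 * BB w + 1)) ⊕ Bool) :
    (s, x) ∈ wH sk (2 * BB w + 1) {x | x ∈ H} ↔
      (s, wcode (n := n) (2 * BB w + 1) x) ∈ HX (goX sk tc e Sm) w := by
  have hR : (s, wcode (n := n) (2 * BB w + 1) x) ∈ HX (goX sk tc e Sm) w ↔
      HV sk (NN e w) w (bn s) (wcode (n := n) (2 * BB w + 1) x) := Iff.rfl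
  rw [hR]
  rcases x with ⟨Q, i⟩ | c'
  · have h1 := hHV s Q i.val i.isLt
    have h2 : wcode (n := n) (2 * BB w + 1) (Sum.inl (Q, i)) = codeB Q + 3 ^ (n * n) * i.val := rfl
    rw [h2, h1]
    unfold wH
    simp only [Set.mem_setOf_eq, Sum.inl.injEq]
    constructor
    · rintro ⟨a, rfl, h⟩
      exact h
    · intro h
      exact ⟨(Q, i), rfl, h⟩
  · have h2 : wcode (n := n) (2 * BB w + 1) (Sum.inr c') = 3 ^ (n * n) * (2 * BB w + 1) + bn c' :=
      rfl
    rw [h2]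
    constructor
    · rintro ⟨a, h, -⟩
      exact absurd h (by simp)
    · rintro ⟨h, -⟩
      exfalso
      unfold TT MM at h
      rw [hPP] at h
      omega

private theorem lang_iff (sk tc : Bool) (e : ℕ) (Sm : Bool → ℕ → ℕ → (ℕ → ℕ) → Prop)
    (w : List (Fin 5)) (c : Bool) (b : ℕ) (hsd : sdV w 0 = bn c) (hb : b0V (NN e w) w = b) :
    w ∈ LangX (goX sk tc e Sm) ↔ if c = true then
      WNs (AX (goX sk tc e Sm) w) sk (HX (goX sk tc e Sm) w) (R0 w + 1) true b
      else ¬ WNs (AX (goX sk tc e Sm) w) sk (HX (goX sk tc e Sm) w) (R0 w + 1) false b := by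
  have h1 : w ∈ LangX (goX sk tc e Sm) ↔ if sdV w 0 = 1 then
      WNs (AX (goX sk tc e Sm) w) sk (HX (goX sk tc e Sm) w) (R0 w + 1) true (b0V (NN e w) w)
      else ¬ WNs (AX (goX sk tc e Sm) w) sk (HX (goX sk tc e Sm) w) (R0 w + 1) false
        (b0V (NN e w) w) := Iff.rfl
  rw [h1, hb, hsd]
  cases c
  · simp [bn]
  · simp [bn]

theorem hFNV (hGKL : StGKL) (hONM : StONM) (hSML : StSML) (hVAL : StVAL) (hWSC : StWSC)
    (hWBD : StWBD) (hTRS : StTRS) (hENV : StENV) (hCRM : StCRM) (hCRS : StCRS) :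
    Pool.Agent.Helper79.GT.StFNV := by
  intro sk tc e Sm D hSmC n m kb kw c P H hn h3 hPP hlen hFew hSound
  obtain ⟨hnV, hmV, hkb, hkw, hsd, hN⟩ := hENV n m kb kw c P H hn
  obtain ⟨hb0, hHV⟩ := hN (NN e (inst n m kb kw c P H)) h3
  have hHV' := hHV sk
  clear hN hHV
  generalize inst n m kb kw c P H = w at *
  -- the number of cells
  have hcard : Nat.card (Fin n × Fin n) = n * n := by
    rw [Nat.card_prod, Nat.card_eq_fintype_card, Fintype.card_fin]
  have hK : KoLaw (goG (grid n) tc)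
      (fun P => (area (grid n) P true : ℤ) - area (grid n) P false) (gV tc) (n * n) := by
    have h := hGKL (Fin n × Fin n) (grid n) tc
    rw [hcard] at h
    exact h
  have hBd : Bd (uA (goG (grid n) tc) (dcl D w)
      (fun P => (area (grid n) P true : ℤ) - area (grid n) P false)) (R0 w) P := by
    have h := hONM (Fin n × Fin n) (grid n) tc (dcl D w)
      (fun P => (area (grid n) P true : ℤ) - area (grid n) P false) m P hFew
    rw [hcard] at h
    unfold R0
    rw [hnV, hmV]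
    exact h
  have hBB : (2 * R0 w + 1) * (n * n) ≤ BB w := by
    unfold BB
    rw [hnV]
  haveI hfin : Finite (Pos (Fin n × Fin n)) := Pi.finite
  have h1 := hSML (Pos (Fin n × Fin n)) (goG (grid n) tc) (dcl D w)
    (fun P => (area (grid n) P true : ℤ) - area (grid n) P false) (gV tc) (n * n) (BB w) (R0 w)
    ((kb : ℤ) - kw) sk {x | x ∈ H} c P hK hBB hBd hSound
  have hSc := hWSC (Pos (Fin n × Fin n)) (goG (grid n) tc) (dcl D w)
    (fun P => (area (grid n) P true : ℤ) - area (grid n) P false) (gV tc) (n * n) (2 * BB w + 1)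
    (BB w) ((kb : ℤ) - kw) hK
  have hBd' := hWBD (Pos (Fin n × Fin n)) (goG (grid n) tc) (dcl D w)
    (fun P => (area (grid n) P true : ℤ) - area (grid n) P false) (gV tc) (n * n) (2 * BB w + 1)
    (BB w) (R0 w) ((kb : ℤ) - kw) hK (P, ⟨BB w, by omega⟩) hBd
  obtain ⟨hinj, hmv, hsup⟩ := hCRM sk tc e Sm D n w ((kb : ℤ) - kw) hn hnV h3 hPP hlen hSmC
  have hs := hCRS sk tc e Sm D n w hn hnV h3 hPP
  rw [hkb, hkw] at hs
  have hsymm : sk = false → ∀ x, (true, x) ∈ wH sk (2 * BB w + 1) {x | x ∈ H} ↔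
      (false, x) ∈ wH sk (2 * BB w + 1) {x | x ∈ H} := by
    rintro rfl x
    exact sym_wH _ _ x
  have hV : ∀ c' : Bool, (MWs (wA (goG (grid n) tc) (dcl D w) (gV tc) (2 * BB w + 1) (BB w)
        ((kb : ℤ) - kw)) sk (insert (c', Sum.inl (P, ⟨BB w, by omega⟩))
          (wH sk (2 * BB w + 1) {x | x ∈ H})) false c' (Sum.inl (P, ⟨BB w, by omega⟩)) ↔
      WNs (AX (goX sk tc e Sm) w) sk (HX (goX sk tc e Sm) w) (R0 w + 1) c'
        (wcode (n := n) (2 * BB w + 1) (Sum.inl (P, ⟨BB w, by omega⟩)))) := by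
    intro c'
    rw [hVAL _ _ hSc sk _ hsymm (R0 w + 1) _ c' hBd']
    exact hTRS _ _ _ _ (wcode (n := n) (2 * BB w + 1)) hinj hmv hsup hs _ _
      (hist sk tc e Sm w H hPP hHV') sk (R0 w + 1) c' _
  rw [h1, lang_iff sk tc e Sm w c _ hsd hb0]
  cases c
  · rw [if_neg (by simp), if_neg (by simp), hV false]
    exact Iff.rfl
  · rw [if_pos rfl, if_pos rfl, hV true]
    exact Iff.rfl

end Pool.Agent.Helper87.GT
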